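import Pool.Agent.H18.RM.SK
import Pool.Agent.H48.RMJ.Base

/-!
The scalar checker `chkK` gives the certificate predicate of the three set theorem
(project RM, MP_28724c_co). Author: helper18.
-/

open Finset

namespace Pool.Agent.H18.RM.K

open Pool.Agent.H34.RM Pool.Agent.H66.RM

/-- the base inequalities of a polynomial certificate -/
def BaseP (n : ℕ) (cf : ℕ → ℕ → ℝ) (s t la la' l1 C : ℝ) (m : ℕ) : Prop :=
  1 ≤ n ∧ (∀ i j, 0 ≤ cf i j) ∧ 0 ≤ la ∧ 0 ≤ la' ∧ 0 ≤ l1 ∧ 0 ≤ C ∧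
    (∀ y z : ℝ, pol n cf y z ≤ la * Real.exp (y + t * z) + l1 * (Real.exp y + Real.exp z)) ∧
    (∀ y z : ℝ, pol n cf y z ≤ la' * Real.exp (z + s * y) + l1 * (Real.exp y + Real.exp z)) ∧
    (∀ y z : ℝ, pol n cf y z ≤ C * (1 + (max y 0) ^ m + (max z 0) ^ m))

/-- **From the scalar checker to the certificate predicate.** -/
theorem cert3P_of_base {n m : ℕ} {cf : ℕ → ℕ → ℝ} {S LS T LT LA LB L1 C0 : ℤ}
    {la la' l1 C : ℝ}
    (hJ : BaseP n cf ((S : ℝ) / 1000000) ((T : ℝ) / 1000000) la la' l1 C m)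
    (hb : chkBase S LS T LT LA LB L1 = true) (hla : la ≤ (LA : ℝ) / 1000000)
    (hlb : la' ≤ (LB : ℝ) / 1000000) (hl1 : l1 ≤ (L1 : ℝ) / 1000000)
    (hC0 : (C0 : ℝ) / 1000000 ≤ cf 0 0) (r : SCk)
    (h : chkK S LS T LT LA LB L1 C0 r = true) :
    Cert3P ((r.a : ℝ) / 1000000) ((r.b : ℝ) / 1000000) ((r.c : ℝ) / 1000000)
      ((r.q : ℝ) / 1000000) ((r.p : ℝ) / 1000000) ((r.L : ℝ) / 1000000)
      ((r.M : ℝ) / 1000000) := by
  obtain ⟨ha, hb', hc, hq0, hq1, hp0, hp1, hL, hM, hsc⟩ := scal_of_chk hb hla hlb hl1 r h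
  simp only [chkBase, Bool.and_eq_true, decide_eq_true_eq] at hb
  obtain ⟨⟨⟨⟨⟨⟨⟨⟨⟨⟨hS0, hS1⟩, hT0⟩, hT1⟩, -⟩, -⟩, -⟩, -⟩, -⟩, -⟩, -⟩ := hb
  have hS0' : (0 : ℝ) ≤ S := by exact_mod_cast hS0
  have hS1' : (S : ℝ) < 1000000 := by exact_mod_cast hS1
  have hT0' : (0 : ℝ) ≤ T := by exact_mod_cast hT0
  have hT1' : (T : ℝ) < 1000000 := by exact_mod_cast hT1
  have s0 : (0 : ℝ) ≤ (S : ℝ) / 1000000 := by positivity
  have t0 : (0 : ℝ) ≤ (T : ℝ) / 1000000 := by positivity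
  have s1 : (S : ℝ) / 1000000 < 1 := by rw [div_lt_one (by norm_num)]; exact hS1'
  have t1 : (T : ℝ) / 1000000 < 1 := by rw [div_lt_one (by norm_num)]; exact hT1'
  obtain ⟨d, hd0, hd1, hd⟩ := ex_d (w0 := cf 0 0) s0 s1 t0 t1 hq0 hq1 hp0 hp1
    (lt_of_lt_of_le hsc hC0)
  obtain ⟨hn, hcf, la0, la0', l10, hC, hR, hB, hG⟩ := hJ
  exact ⟨ha, hb', hc, hq0, hq1, hp0, hp1, hL, hM, d, hd0, hd1, n, cf, _, _, la, la', l1, C, m,
    hn, hcf, s0, s1.le, t0, t1.le, la0, la0', l10, hC, hR, hB, hG, hd⟩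

/-- The universal certificate of helper66, proved by helper48. -/
theorem base48 : BaseP 6 Pool.Agent.H48.RMJ.cf0 (((400000 : ℤ) : ℝ) / 1000000)
    (((400000 : ℤ) : ℝ) / 1000000) (111 / 100) (111 / 100) (1 / 10 ^ 85) 40 5 := by
  have e : (((400000 : ℤ) : ℝ) / 1000000) = 2 / 5 := by norm_num
  rw [e]
  refine ⟨by norm_num, Pool.Agent.H48.RMJ.cf0_nonneg, by norm_num, by norm_num, by norm_num,
    by norm_num, Pool.Agent.H48.RMJ.cert_red le_rfl, Pool.Agent.H48.RMJ.cert_blue le_rfl,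
    Pool.Agent.H48.RMJ.growth⟩

/-- The test with the parameters `s = t = 2/5`, `la = la' = 111/100`. -/
def chk (r : SCk) : Bool :=
  chkK 400000 (-510825) 400000 (-510825) 1110000 1110000 10 1000000 r

lemma base_ok : chkBase 400000 (-510825) 400000 (-510825) 1110000 1110000 10 = true := by
  decide +kernel

/-- **Final form:** one integer test per three set step. -/
theorem cert3P_of_chk (r : SCk) (h : chk r = true) :
    Cert3P ((r.a : ℝ) / 1000000) ((r.b : ℝ) / 1000000) ((r.c : ℝ) / 1000000)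
      ((r.q : ℝ) / 1000000) ((r.p : ℝ) / 1000000) ((r.L : ℝ) / 1000000)
      ((r.M : ℝ) / 1000000) :=
  cert3P_of_base base48 base_ok (by norm_num) (by norm_num) (by norm_num)
    (by rw [Pool.Agent.H48.RMJ.cf0_zero]; norm_num) r h

end Pool.Agent.H18.RM.K
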