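import Pool.Agent.H34.RM.Rows2
import Pool.Agent.H66.RM.Lim
import Pool.Agent.H92.RamseyN1

/-!
Scalar checker for the three set steps (project RM, MP_28724c_co), with the limit costs
(`kap` of H66/RM/Lim): a kernel decidable test on integers of scale `10^6`.
Author: helper18.
-/

open Finset

namespace Pool.Agent.H18.RM.K

open Pool.Agent.H92.Num Pool.Agent.H34.RM Pool.Agent.H66.RM

/-- integer data of a three set step (scale `10^6`): parameters and upper or lower bounds for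
the logarithms (`lq ≤ log q`, `lp ≤ log p`, `log (r/p) ≤ rp`, `log (r'/q) ≤ rq`), and
exponents of the costs. -/
structure SCk where
  a : ℤ
  b : ℤ
  c : ℤ
  q : ℤ
  p : ℤ
  L : ℤ
  M : ℤ
  lq : ℤ
  lp : ℤ
  rp : ℤ
  rq : ℤ
  XR : ℤ
  XB : ℤ
  XQ : ℤ
  XP : ℤ

/-- the base parameters: `t = T/10^6`, `log (1-t) ≤ LT/10^6`, and the same for `s` -/
def chkBase (S LS T LT LA LB L1 : ℤ) : Bool :=
  decide (0 ≤ S) && decide (S < 1000000) && decide (0 ≤ T) && decide (T < 1000000) &&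
  rng LS && rng LT &&
  decide ((1000000 - S) * 1000000000 ≤ (expLo LS : ℤ)) &&
  decide ((1000000 - T) * 1000000000 ≤ (expLo LT : ℤ)) &&
  decide (0 ≤ LA) && decide (0 ≤ LB) && decide (0 ≤ L1)

/-- `10^18` times an upper bound of `kap t p` -/
def kapU (T LT p rp : ℤ) : ℤ :=
  (1000000 - p) * (1000000 - T) * LT + (p * (1000000 - T) + 1000000 * T) * rp

/-- the test for one step -/
def chkK (S LS T LT LA LB L1 C0 : ℤ) (r : SCk) : Bool :=
  decide (0 < r.a) && decide (0 < r.b) && decide (0 < r.c) &&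
  decide (0 < r.q) && decide (r.q < 1000000) && decide (0 < r.p) && decide (r.p < 1000000) &&
  decide (0 ≤ r.L) && decide (0 ≤ r.M) &&
  rng r.lq && rng r.lp && rng r.rp && rng r.rq && rng r.XR && rng r.XB && rng r.XQ && rng r.XP &&
  decide ((expHi r.lq : ℤ) ≤ r.q * 1000000000) && decide ((expHi r.lp : ℤ) ≤ r.p * 1000000000) &&
  decide ((r.p * (1000000 - T) + 1000000 * T) * 1000000000 ≤ (expLo r.rp : ℤ) * r.p) &&
  decide ((r.q * (1000000 - S) + 1000000 * S) * 1000000000 ≤ (expLo r.rq : ℤ) * r.q) &&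
  decide (-r.L * 1000000000000000000 - r.b * r.lq * 1000000000000 + r.c * kapU T LT r.p r.rp
    ≤ r.a * r.XR * 1000000000000) &&
  decide (-r.M * 1000000000000000000 - r.c * r.lp * 1000000000000 + r.b * kapU S LS r.q r.rq
    ≤ r.a * r.XB * 1000000000000) &&
  decide (-r.b * r.lq ≤ r.a * r.XQ) && decide (-r.c * r.lp ≤ r.a * r.XP) &&
  decide (LA * (expHi r.XR : ℤ) + LB * (expHi r.XB : ℤ)
    + L1 * ((expHi r.XQ : ℤ) + (expHi r.XP : ℤ)) < C0 * 1000000000000000)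

lemma log_le_of_expLo {x : ℝ} {k : ℤ} (hx : 0 < x) (hk : rng k = true)
    (h : x * 1000000000000000 ≤ (expLo k : ℝ)) : Real.log x ≤ (k : ℝ) / 1000000 := by
  have h1 := expLo_spec hk
  have h2 : x ≤ Real.exp ((k : ℝ) / 1000000) := by linarith
  rw [← Real.log_exp ((k : ℝ) / 1000000)]
  exact Real.log_le_log hx h2

lemma le_log_of_expHi {x : ℝ} {k : ℤ} (hk : rng k = true)
    (h : (expHi k : ℝ) ≤ x * 1000000000000000) : (k : ℝ) / 1000000 ≤ Real.log x := by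
  have h1 := expHi_spec hk
  have h2 : Real.exp ((k : ℝ) / 1000000) ≤ x := by linarith
  rw [← Real.log_exp ((k : ℝ) / 1000000)]
  exact Real.log_le_log (Real.exp_pos _) h2

lemma kap_le {T LT p rp : ℤ} (hT0 : 0 ≤ T) (hT1 : T < 1000000) (hp0 : 0 < p) (hp1 : p < 1000000)
    (hLT : rng LT = true) (hrp : rng rp = true)
    (h1 : (1000000 - T) * 1000000000 ≤ (expLo LT : ℤ))
    (h2 : (p * (1000000 - T) + 1000000 * T) * 1000000000 ≤ (expLo rp : ℤ) * p) :
    kap ((T : ℝ) / 1000000) ((p : ℝ) / 1000000)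
      ≤ (kapU T LT p rp : ℝ) / 1000000000000000000 := by
  set τ : ℝ := (T : ℝ) / 1000000 with hτ
  set π : ℝ := (p : ℝ) / 1000000 with hπ
  have hT0' : (0 : ℝ) ≤ T := by exact_mod_cast hT0
  have hT1' : (T : ℝ) < 1000000 := by exact_mod_cast hT1
  have hp0' : (0 : ℝ) < p := by exact_mod_cast hp0
  have hp1' : (p : ℝ) < 1000000 := by exact_mod_cast hp1
  have hτ0 : 0 ≤ τ := by positivity
  have hτ1 : τ < 1 := by rw [hτ, div_lt_one (by norm_num)]; exact hT1'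
  have hπ0 : 0 < π := by positivity
  have hπ1 : π < 1 := by rw [hπ, div_lt_one (by norm_num)]; exact hp1'
  have hr0 : 0 < 1 - τ + τ / π := by
    have : 0 ≤ τ / π := by positivity
    linarith
  have e1 : Real.log (1 - τ) ≤ (LT : ℝ) / 1000000 := by
    refine log_le_of_expLo (by linarith) hLT ?_
    have h1' : ((1000000 : ℝ) - T) * 1000000000 ≤ (expLo LT : ℝ) := by exact_mod_cast h1
    rw [hτ]
    linarith
  have e : 1 - τ + τ / π = ((p : ℝ) * (1000000 - T) + 1000000 * T) / (1000000 * p) := by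
    rw [hτ, hπ]; field_simp
  have e2 : Real.log (1 - τ + τ / π) ≤ (rp : ℝ) / 1000000 := by
    refine log_le_of_expLo hr0 hrp ?_
    have h2' : ((p : ℝ) * (1000000 - T) + 1000000 * T) * 1000000000 ≤ (expLo rp : ℝ) * p := by
      exact_mod_cast h2
    rw [e, div_mul_eq_mul_div, div_le_iff₀ (by positivity)]
    linarith
  unfold kap
  have a1 : 0 ≤ 1 - π := by linarith
  have a2 : 0 ≤ 1 - τ := by linarith
  have f1 : (1 - π) * ((1 - τ) * Real.log (1 - τ))
      ≤ (1 - π) * ((1 - τ) * ((LT : ℝ) / 1000000)) := by gcongr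
  have f2 : π * ((1 - τ + τ / π) * Real.log (1 - τ + τ / π))
      ≤ π * ((1 - τ + τ / π) * ((rp : ℝ) / 1000000)) := by gcongr
  refine (add_le_add f1 f2).trans (le_of_eq ?_)
  rw [e, hτ, hπ]
  unfold kapU
  push_cast
  field_simp
  ring

lemma cost_exp {a L b lq c K X A : ℝ} (ha : 0 < a) (h : -L - b * lq + c * K ≤ a * X)
    (hb : 0 < b) (hc : 0 < c) {LQ KK : ℝ} (hlq : lq ≤ LQ) (hK : KK ≤ K)
    (hX : Real.exp X ≤ A) : Real.exp (-(L + b * LQ - c * KK) / a) ≤ A := by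
  refine le_trans (Real.exp_le_exp.2 ?_) hX
  rw [div_le_iff₀ ha]
  have f1 := mul_le_mul_of_nonneg_left hlq hb.le
  have f2 := mul_le_mul_of_nonneg_left hK hc.le
  linarith

lemma exp_le_expHi {X : ℤ} (h : rng X = true) :
    Real.exp ((X : ℝ) / 1000000) ≤ (expHi X : ℝ) / 1000000000000000 := by
  rw [le_div_iff₀ (by norm_num)]
  linarith [expHi_spec h]

/-- **The scalar checker**, independent of the certificate format. -/
theorem scal_of_chk {S LS T LT LA LB L1 C0 : ℤ} {la la' l1 : ℝ}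
    (hb : chkBase S LS T LT LA LB L1 = true) (hla : la ≤ (LA : ℝ) / 1000000)
    (hlb : la' ≤ (LB : ℝ) / 1000000)
    (hl1 : l1 ≤ (L1 : ℝ) / 1000000) (r : SCk) (h : chkK S LS T LT LA LB L1 C0 r = true) :
    (0 : ℝ) < (r.a : ℝ) / 1000000 ∧ (0 : ℝ) < (r.b : ℝ) / 1000000 ∧
    (0 : ℝ) < (r.c : ℝ) / 1000000 ∧ (0 : ℝ) < (r.q : ℝ) / 1000000 ∧ (r.q : ℝ) / 1000000 < 1 ∧
    (0 : ℝ) < (r.p : ℝ) / 1000000 ∧ (r.p : ℝ) / 1000000 < 1 ∧ (0 : ℝ) ≤ (r.L : ℝ) / 1000000 ∧
    (0 : ℝ) ≤ (r.M : ℝ) / 1000000 ∧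
    la * Real.exp (-((r.L : ℝ) / 1000000 + (r.b : ℝ) / 1000000 * Real.log ((r.q : ℝ) / 1000000)
        - (r.c : ℝ) / 1000000 * kap ((T : ℝ) / 1000000) ((r.p : ℝ) / 1000000))
          / ((r.a : ℝ) / 1000000)) +
      la' * Real.exp (-((r.M : ℝ) / 1000000 + (r.c : ℝ) / 1000000
          * Real.log ((r.p : ℝ) / 1000000)
        - (r.b : ℝ) / 1000000 * kap ((S : ℝ) / 1000000) ((r.q : ℝ) / 1000000))
          / ((r.a : ℝ) / 1000000)) +
      l1 * (((r.q : ℝ) / 1000000) ^ (-((r.b : ℝ) / 1000000) / ((r.a : ℝ) / 1000000)) +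
        ((r.p : ℝ) / 1000000) ^ (-((r.c : ℝ) / 1000000) / ((r.a : ℝ) / 1000000)))
      < (C0 : ℝ) / 1000000 := by
  simp only [chkBase, Bool.and_eq_true, decide_eq_true_eq] at hb
  obtain ⟨⟨⟨⟨⟨⟨⟨⟨⟨⟨hS0, hS1⟩, hT0⟩, hT1⟩, rLS⟩, rLT⟩, hLS⟩, hLT⟩, hLA⟩, hLB⟩, hL1⟩ := hb
  simp only [chkK, Bool.and_eq_true, decide_eq_true_eq] at h
  obtain ⟨⟨⟨⟨⟨⟨⟨⟨⟨⟨⟨⟨⟨⟨⟨⟨⟨⟨⟨⟨⟨⟨⟨⟨⟨ha, hb⟩, hc⟩, hq0⟩, hq1⟩, hp0⟩, hp1⟩, hL⟩, hM⟩, rlq⟩, rlp⟩,
    rrp⟩, rrq⟩, rXR⟩, rXB⟩, rXQ⟩, rXP⟩, elq⟩, elp⟩, erp⟩, erq⟩, xR⟩, xB⟩, xQ⟩, xP⟩, fin⟩ := h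
  have ha' : (0 : ℝ) < r.a := by exact_mod_cast ha
  have hb' : (0 : ℝ) < r.b := by exact_mod_cast hb
  have hc' : (0 : ℝ) < r.c := by exact_mod_cast hc
  have hq0' : (0 : ℝ) < r.q := by exact_mod_cast hq0
  have hq1' : (r.q : ℝ) < 1000000 := by exact_mod_cast hq1
  have hp0' : (0 : ℝ) < r.p := by exact_mod_cast hp0
  have hp1' : (r.p : ℝ) < 1000000 := by exact_mod_cast hp1
  have hL' : (0 : ℝ) ≤ r.L := by exact_mod_cast hL
  have hM' : (0 : ℝ) ≤ r.M := by exact_mod_cast hM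
  have hLA' : (0 : ℝ) ≤ LA := by exact_mod_cast hLA
  have hLB' : (0 : ℝ) ≤ LB := by exact_mod_cast hLB
  have hL1' : (0 : ℝ) ≤ L1 := by exact_mod_cast hL1
  have kp := kap_le hT0 hT1 hp0 hp1 rLT rrp hLT erp
  have kq := kap_le hS0 hS1 hq0 hq1 rLS rrq hLS erq
  have lq' : (r.lq : ℝ) / 1000000 ≤ Real.log ((r.q : ℝ) / 1000000) := by
    refine le_log_of_expHi rlq ?_
    have h2 : (expHi r.lq : ℝ) ≤ r.q * 1000000000 := by exact_mod_cast elq
    linarith
  have lp' : (r.lp : ℝ) / 1000000 ≤ Real.log ((r.p : ℝ) / 1000000) := by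
    refine le_log_of_expHi rlp ?_
    have h2 : (expHi r.lp : ℝ) ≤ r.p * 1000000000 := by exact_mod_cast elp
    linarith
  have qa : (0 : ℝ) < (r.a : ℝ) / 1000000 := by positivity
  have qb : (0 : ℝ) < (r.b : ℝ) / 1000000 := by positivity
  have qc : (0 : ℝ) < (r.c : ℝ) / 1000000 := by positivity
  have qq : (0 : ℝ) < (r.q : ℝ) / 1000000 := by positivity
  have qp : (0 : ℝ) < (r.p : ℝ) / 1000000 := by positivity
  have cR := cost_exp (L := (r.L : ℝ) / 1000000) (X := (r.XR : ℝ) / 1000000) qa (by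
      have h1 : -(r.L : ℝ) * 1000000000000000000 - r.b * r.lq * 1000000000000
          + r.c * (kapU T LT r.p r.rp : ℝ) ≤ r.a * r.XR * 1000000000000 := by
        exact_mod_cast xR
      have h2 : -((r.L : ℝ) / 1000000) - (r.b : ℝ) / 1000000 * ((r.lq : ℝ) / 1000000)
          + (r.c : ℝ) / 1000000 * ((kapU T LT r.p r.rp : ℝ) / 1000000000000000000)
          = (-(r.L : ℝ) * 1000000000000000000 - r.b * r.lq * 1000000000000
          + r.c * (kapU T LT r.p r.rp : ℝ)) / 1000000000000000000000000 := by ring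
      have h3 : (r.a : ℝ) / 1000000 * ((r.XR : ℝ) / 1000000)
          = (r.a * r.XR * 1000000000000) / 1000000000000000000000000 := by ring
      rw [h2, h3]
      gcongr) qb qc lq' kp (exp_le_expHi rXR)
  have cB := cost_exp (L := (r.M : ℝ) / 1000000) (X := (r.XB : ℝ) / 1000000) qa (by
      have h1 : -(r.M : ℝ) * 1000000000000000000 - r.c * r.lp * 1000000000000
          + r.b * (kapU S LS r.q r.rq : ℝ) ≤ r.a * r.XB * 1000000000000 := by
        exact_mod_cast xB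
      have h2 : -((r.M : ℝ) / 1000000) - (r.c : ℝ) / 1000000 * ((r.lp : ℝ) / 1000000)
          + (r.b : ℝ) / 1000000 * ((kapU S LS r.q r.rq : ℝ) / 1000000000000000000)
          = (-(r.M : ℝ) * 1000000000000000000 - r.c * r.lp * 1000000000000
          + r.b * (kapU S LS r.q r.rq : ℝ)) / 1000000000000000000000000 := by ring
      have h3 : (r.a : ℝ) / 1000000 * ((r.XB : ℝ) / 1000000)
          = (r.a * r.XB * 1000000000000) / 1000000000000000000000000 := by ring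
      rw [h2, h3]
      gcongr) qc qb lp' kq (exp_le_expHi rXB)
  have tl : ∀ {v l x X : ℤ}, 0 < v → rng X = true → (0 : ℝ) < (x : ℝ) / 1000000 →
      (l : ℝ) / 1000000 ≤ Real.log ((x : ℝ) / 1000000) → -v * l ≤ r.a * X →
      ((x : ℝ) / 1000000) ^ (-((v : ℝ) / 1000000) / ((r.a : ℝ) / 1000000))
        ≤ (expHi X : ℝ) / 1000000000000000 := by
    intro v l x X hv hX hx hl hh
    refine le_trans ?_ (exp_le_expHi hX)
    rw [Real.rpow_def_of_pos hx]
    apply Real.exp_le_exp.2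
    have hv' : (0 : ℝ) < v := by exact_mod_cast hv
    have h1 : -(v : ℝ) * l ≤ r.a * X := by exact_mod_cast hh
    have h2 : Real.log ((x : ℝ) / 1000000) * (-((v : ℝ) / 1000000) / ((r.a : ℝ) / 1000000))
        = (-(v : ℝ) * Real.log ((x : ℝ) / 1000000)) / r.a := by
      field_simp
    rw [h2, div_le_iff₀ ha']
    have h3 := mul_le_mul_of_nonneg_left hl hv'.le
    have h4 : (v : ℝ) * ((l : ℝ) / 1000000) = (v * l) / 1000000 := by ring
    have h5 : (X : ℝ) / 1000000 * r.a = (r.a * X) / 1000000 := by ring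
    rw [h5]
    rw [h4] at h3
    have h6 : (-(v : ℝ) * l) / 1000000 ≤ (r.a * X) / 1000000 := by gcongr
    have h7 : (-(v : ℝ) * l) / 1000000 = -((v * l) / 1000000) := by ring
    rw [h7] at h6
    linarith
  have tQ := tl hb rXQ qq lq' xQ
  have tP := tl hc rXP qp lp' xP
  refine ⟨qa, qb, qc, qq, by linarith, qp, by linarith, by positivity, by positivity, ?_⟩
  have fin' : (LA : ℝ) * expHi r.XR + LB * expHi r.XB + L1 * (expHi r.XQ + expHi r.XP)
      < C0 * 1000000000000000 := by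
    exact_mod_cast fin
  have g1 := mul_le_mul hla cR (Real.exp_pos _).le (by positivity)
  have g2 := mul_le_mul hlb cB (Real.exp_pos _).le (by positivity)
  have g3 := mul_le_mul hl1 (add_le_add tQ tP) (by positivity) (by positivity)
  refine lt_of_le_of_lt (add_le_add (add_le_add g1 g2) g3) ?_
  have e : (LA : ℝ) / 1000000 * ((expHi r.XR : ℝ) / 1000000000000000)
      + (LB : ℝ) / 1000000 * ((expHi r.XB : ℝ) / 1000000000000000)
      + (L1 : ℝ) / 1000000 * ((expHi r.XQ : ℝ) / 1000000000000000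
        + (expHi r.XP : ℝ) / 1000000000000000)
      = ((LA : ℝ) * expHi r.XR + LB * expHi r.XB + L1 * (expHi r.XQ + expHi r.XP))
        / (1000000 * 1000000000000000) := by ring
  rw [e, div_lt_iff₀ (by norm_num)]
  linarith

end Pool.Agent.H18.RM.K
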