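import Pool.Agent.H18.RM.CertK
import Pool.Agent.H34.RM.Main
import Pool.Agent.H66.RM.Root

/-!
The scalar checker gives the conclusion of the three set theorem (project RM, MP_28724c_co).
Author: helper18.
-/

namespace Pool.Agent.H18.RM

open Pool.Agent.H34.RM Pool.Agent.H98.RM Pool.Agent.H66.RM.Root

/-- The three set theorem for every step that passes the scalar checker. -/
theorem conc3_of_chk (r : K.SCk) (h : K.chk r = true) :
    Conc3 ((r.a : ℝ) / 1000000) ((r.b : ℝ) / 1000000) ((r.c : ℝ) / 1000000)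
      ((r.q : ℝ) / 1000000) ((r.p : ℝ) / 1000000) ((r.L : ℝ) / 1000000)
      ((r.M : ℝ) / 1000000) :=
  t3 _ _ _ _ _ _ _ (K.cert3P_of_chk r h)

/-- The hypothesis of `H66/RM/Root`. -/
theorem sconc : SConc := fun r h => conc3_of_chk r h

end Pool.Agent.H18.RM
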