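import Mathlib

/-!
Tangent cubics of the exponential and a rational certificate for the two inequalities
`p ≤ ∑ A e^(u+sv)`, `p ≤ ∑ B e^(v+su)` with a cubic `p` (project RM, MP_28724c_co).
Author: helper18.
-/

namespace Pool.Agent.H18.RM

open Real

/-- third Taylor polynomial of the exponential -/
noncomputable def T3 (t : ℝ) : ℝ := 1 + t + t ^ 2 / 2 + t ^ 3 / 6

lemma hasDerivAt_T3 (t : ℝ) : HasDerivAt T3 (1 + t + t ^ 2 / 2) t := by
  have h : HasDerivAt (fun t : ℝ => 1 + t + t ^ 2 / 2 + t ^ 3 / 6)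
      (0 + 1 + (2 * t ^ (2 - 1) * 1) / 2 + (3 * t ^ (3 - 1) * 1) / 6) t := by
    refine (((hasDerivAt_const t (1:ℝ)).add (hasDerivAt_id' t)).add ?_).add ?_
    · exact ((hasDerivAt_id' t).pow 2).div_const 2
    · exact ((hasDerivAt_id' t).pow 3).div_const 6
  have e : (0 + 1 + (2 * t ^ (2 - 1) * 1) / 2 + (3 * t ^ (3 - 1) * 1) / 6 : ℝ)
      = 1 + t + t ^ 2 / 2 := by norm_num; ring
  rw [e] at h
  exact h

/-- for `t ≤ 0`, `exp t ≤ 1 + t + t^2/2` -/
lemma exp_le_quad {t : ℝ} (ht : t ≤ 0) : exp t ≤ 1 + t + t ^ 2 / 2 := by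
  -- f s = 1 + s + s^2/2 - exp s is antitone on (-∞, 0]
  have hd : ∀ s : ℝ, HasDerivAt (fun s => 1 + s + s ^ 2 / 2 - exp s) (1 + s - exp s) s := by
    intro s
    have h : HasDerivAt (fun s : ℝ => 1 + s + s ^ 2 / 2 - exp s)
        (0 + 1 + (2 * s ^ (2 - 1) * 1) / 2 - exp s) s := by
      refine (((hasDerivAt_const s (1:ℝ)).add (hasDerivAt_id' s)).add ?_).sub (hasDerivAt_exp s)
      exact ((hasDerivAt_id' s).pow 2).div_const 2
    have e : (0 + 1 + (2 * s ^ (2 - 1) * 1) / 2 - exp s : ℝ) = 1 + s - exp s := by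
      norm_num
    rwa [e] at h
  have hanti : Antitone (fun s : ℝ => 1 + s + s ^ 2 / 2 - exp s) := by
    refine antitone_of_deriv_nonpos (fun s => (hd s).differentiableAt) (fun s => ?_)
    rw [(hd s).deriv]
    have := add_one_le_exp s
    linarith
  have h := hanti ht
  simp only at h
  norm_num at h
  linarith

/-- `T3 t ≤ exp t` for every real `t` -/
theorem T3_le_exp (t : ℝ) : T3 t ≤ exp t := by
  have hd : ∀ s : ℝ, HasDerivAt (fun s => exp s - T3 s) (exp s - (1 + s + s ^ 2 / 2)) s :=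
    fun s => (hasDerivAt_exp s).sub (hasDerivAt_T3 s)
  rcases le_total 0 t with ht | ht
  · have h := Real.sum_le_exp_of_nonneg ht 4
    have e : ∑ i ∈ Finset.range 4, t ^ i / (i.factorial : ℝ) = T3 t := by
      unfold T3
      simp [Finset.sum_range_succ, Nat.factorial]
    rwa [e] at h
  · have hanti : AntitoneOn (fun s : ℝ => exp s - T3 s) (Set.Iic 0) := by
      refine antitoneOn_of_deriv_nonpos (convex_Iic 0)
        (fun s _ => (hd s).continuousAt.continuousWithinAt)
        (fun s _ => (hd s).differentiableAt.differentiableWithinAt) (fun s hs => ?_)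
      rw [interior_Iic, Set.mem_Iio] at hs
      rw [(hd s).deriv]
      have := exp_le_quad hs.le
      linarith
    have h := hanti (Set.mem_Iic.2 ht) (Set.mem_Iic.2 le_rfl) ht
    simp only [T3, exp_zero] at h ⊢
    norm_num at h
    linarith

/-- the tangent cubic at `c`, with a lower bound `E ≤ exp c` in place of `exp c` -/
theorem tangent3 {E c : ℝ} (hE0 : 0 ≤ E) (hE : E ≤ exp c) (x : ℝ) :
    E * T3 (x - c) ≤ exp x := by
  have h := T3_le_exp (x - c)
  have e : exp x = exp c * exp (x - c) := by rw [← exp_add]; ring_nf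
  rcases le_total 0 (T3 (x - c)) with h0 | h0
  · rw [e]
    exact mul_le_mul hE h h0 (exp_pos c).le
  · exact (mul_nonpos_of_nonneg_of_nonpos hE0 h0).trans (exp_pos x).le

/-- a quadratic polynomial in two variables with positive leading minors is nonnegative -/
theorem quad_nonneg {q00 q01 q02 q11 q12 q22 : ℝ} (h1 : 0 < q11) (h2 : 0 < q11 * q22 - q12 ^ 2)
    (h3 : 0 ≤ q00 * (q11 * q22 - q12 ^ 2) - q01 * (q01 * q22 - q12 * q02)
      + q02 * (q01 * q12 - q11 * q02)) (u v : ℝ) :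
    0 ≤ q00 + 2 * q01 * u + 2 * q02 * v + q11 * u ^ 2 + 2 * q12 * u * v + q22 * v ^ 2 := by
  -- q11 * D * Q = D (q11 u + q12 v + q01)^2 + (D v + (q11 q02 - q12 q01))^2 + q11 * det
  set D := q11 * q22 - q12 ^ 2 with hD
  have key : q11 * D * (q00 + 2 * q01 * u + 2 * q02 * v + q11 * u ^ 2 + 2 * q12 * u * v
      + q22 * v ^ 2) = D * (q11 * u + q12 * v + q01) ^ 2
      + (D * v + (q11 * q02 - q12 * q01)) ^ 2
      + q11 * (q00 * D - q01 * (q01 * q22 - q12 * q02) + q02 * (q01 * q12 - q11 * q02)) := by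
    rw [hD]; ring
  have hpos : 0 < q11 * D := mul_pos h1 h2
  have hrhs : 0 ≤ q11 * D * (q00 + 2 * q01 * u + 2 * q02 * v + q11 * u ^ 2 + 2 * q12 * u * v
      + q22 * v ^ 2) := by
    rw [key]
    have a1 : 0 ≤ D * (q11 * u + q12 * v + q01) ^ 2 := mul_nonneg h2.le (sq_nonneg _)
    have a2 := sq_nonneg (D * v + (q11 * q02 - q12 * q01))
    have a3 := mul_nonneg h1.le h3
    linarith
  exact nonneg_of_mul_nonneg_right hrhs hpos

end Pool.Agent.H18.RM
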