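import Mathlib

/-!
Schur products of covariance kernels (project RM, MP_28724c_co).
A kernel is of positive type if it is a finite nonnegative combination of products
`F x * F x'`; this class is closed under sums, products and powers, and its double sums
against `pi x * pi x'` are nonnegative.
Author: helper18.
-/

open Finset

namespace Pool.Agent.H18.RM

/-- `k x x' = ∑ t, c t * F t x * F t x'` with `c ≥ 0` (a kernel of positive type). -/
def PosK {V : Type*} (k : V → V → ℝ) : Prop :=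
  ∃ (n : ℕ) (c : Fin n → ℝ) (F : Fin n → V → ℝ), (∀ t, 0 ≤ c t) ∧
    ∀ x x', k x x' = ∑ t, c t * (F t x * F t x')

variable {V : Type*}

lemma PosK.of_fintype {T : Type*} [Fintype T] {k : V → V → ℝ} (c : T → ℝ) (F : T → V → ℝ)
    (hc : ∀ t, 0 ≤ c t) (hk : ∀ x x', k x x' = ∑ t, c t * (F t x * F t x')) : PosK k := by
  classical
  let e := (Fintype.equivFin T).symm
  refine ⟨Fintype.card T, fun i => c (e i), fun i => F (e i), fun i => hc _, fun x x' => ?_⟩
  rw [hk, ← Equiv.sum_comp e]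

lemma PosK.of_finset {T : Type*} (S : Finset T) {k : V → V → ℝ} (c : T → ℝ) (F : T → V → ℝ)
    (hc : ∀ t ∈ S, 0 ≤ c t) (hk : ∀ x x', k x x' = ∑ t ∈ S, c t * (F t x * F t x')) :
    PosK k := by
  classical
  refine PosK.of_fintype (T := S) (fun t => c t) (fun t => F t) (fun t => hc t t.2)
    (fun x x' => ?_)
  rw [hk, ← Finset.sum_coe_sort S]

lemma PosK.of_const {a : ℝ} (ha : 0 ≤ a) : PosK (fun _ _ : V => a) :=
  PosK.of_fintype (T := Unit) (fun _ => a) (fun _ _ => 1) (fun _ => ha) (by intros; simp)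

lemma PosK.rank_one (h : V → ℝ) : PosK (fun x x' => h x * h x') :=
  PosK.of_fintype (T := Unit) (fun _ => 1) (fun _ => h) (fun _ => zero_le_one) (by intros; simp)

lemma PosK.add {k k' : V → V → ℝ} (h : PosK k) (h' : PosK k') :
    PosK (fun x x' => k x x' + k' x x') := by
  obtain ⟨n, c, F, hc, hk⟩ := h
  obtain ⟨m, d, H, hd, hk'⟩ := h'
  refine PosK.of_fintype (T := Fin n ⊕ Fin m) (Sum.elim c d) (Sum.elim F H) ?_ ?_
  · rintro (t | t)
    · exact hc t
    · exact hd t
  · intro x x'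
    rw [Fintype.sum_sum_type, hk, hk']
    simp

lemma PosK.mul {k k' : V → V → ℝ} (h : PosK k) (h' : PosK k') :
    PosK (fun x x' => k x x' * k' x x') := by
  obtain ⟨n, c, F, hc, hk⟩ := h
  obtain ⟨m, d, H, hd, hk'⟩ := h'
  refine PosK.of_fintype (T := Fin n × Fin m) (fun t => c t.1 * d t.2)
    (fun t x => F t.1 x * H t.2 x) (fun t => mul_nonneg (hc _) (hd _)) ?_
  intro x x'
  rw [Fintype.sum_prod_type, hk, hk', Finset.sum_mul_sum]
  refine Finset.sum_congr rfl fun t _ => Finset.sum_congr rfl fun t' _ => ?_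
  ring

lemma PosK.pow {k : V → V → ℝ} (h : PosK k) (n : ℕ) : PosK (fun x x' => k x x' ^ n) := by
  induction n with
  | zero => simpa using PosK.of_const (V := V) zero_le_one
  | succ n ih => simpa only [pow_succ] using ih.mul h

lemma PosK.const_mul {k : V → V → ℝ} (h : PosK k) {a : ℝ} (ha : 0 ≤ a) :
    PosK (fun x x' => a * k x x') :=
  (PosK.of_const (V := V) ha).mul h

lemma PosK.weight {k : V → V → ℝ} (h : PosK k) (g : V → ℝ) :
    PosK (fun x x' => g x * g x' * k x x') :=
  (PosK.rank_one g).mul h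

lemma PosK.congr {k k' : V → V → ℝ} (h : PosK k) (e : ∀ x x', k' x x' = k x x') : PosK k' := by
  have : k' = k := by funext x x'; exact e x x'
  rw [this]; exact h

/-- finite sums of kernels of positive type -/
lemma PosK.sum {T : Type*} (S : Finset T) {k : T → V → V → ℝ} (h : ∀ t ∈ S, PosK (k t)) :
    PosK (fun x x' => ∑ t ∈ S, k t x x') := by
  classical
  induction S using Finset.induction_on with
  | empty => simpa using PosK.of_const (V := V) le_rfl
  | insert a S ha ih =>
    refine PosK.congr ((h a (Finset.mem_insert_self a S)).add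
      (ih fun t ht => h t (Finset.mem_insert_of_mem ht))) ?_
    intro x x'
    rw [Finset.sum_insert ha]

/-- the double sum of a kernel of positive type is nonnegative -/
lemma PosK.double_sum_nonneg {k : V → V → ℝ} (h : PosK k) (X : Finset V) (w : V → ℝ) :
    0 ≤ ∑ x ∈ X, ∑ x' ∈ X, w x * w x' * k x x' := by
  obtain ⟨n, c, F, hc, hk⟩ := h
  have e : ∑ x ∈ X, ∑ x' ∈ X, w x * w x' * k x x'
      = ∑ t, c t * (∑ x ∈ X, w x * F t x) ^ 2 := by
    have e1 : ∀ x ∈ X, ∀ x' ∈ X, w x * w x' * k x x'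
        = ∑ t, c t * ((w x * F t x) * (w x' * F t x')) := by
      intro x _ x' _
      rw [hk, Finset.mul_sum]
      exact Finset.sum_congr rfl fun t _ => by ring
    rw [Finset.sum_congr rfl fun x hx => Finset.sum_congr rfl fun x' hx' => e1 x hx x' hx',
      Finset.sum_congr rfl fun x _ => Finset.sum_comm
        (s := X) (t := (Finset.univ : Finset (Fin n)))
        (f := fun x' t => c t * ((w x * F t x) * (w x' * F t x'))),
      Finset.sum_comm]
    refine Finset.sum_congr rfl fun t _ => ?_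
    rw [sq, Finset.sum_mul_sum, Finset.mul_sum]
    refine Finset.sum_congr rfl fun x _ => ?_
    rw [Finset.mul_sum]
  rw [e]
  exact Finset.sum_nonneg fun t _ => mul_nonneg (hc t) (sq_nonneg _)

/-- the Gram kernel of weights `nu ≥ 0` is of positive type -/
lemma posK_gram {U : Type*} (Y : Finset U) {nu : U → ℝ} (hnu : ∀ y ∈ Y, 0 ≤ nu y)
    (f : V → U → ℝ) : PosK (fun x x' => ∑ y ∈ Y, nu y * (f x y * f x' y)) :=
  PosK.of_finset Y nu (fun y x => f x y) hnu (fun _ _ => rfl)

/-- covariance under the probability weights `nu` -/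
def cov {U : Type*} (Y : Finset U) (nu : U → ℝ) (f g : U → ℝ) : ℝ :=
  (∑ y ∈ Y, nu y * (f y * g y)) - (∑ y ∈ Y, nu y * f y) * (∑ y ∈ Y, nu y * g y)

lemma cov_comm {U : Type*} (Y : Finset U) (nu : U → ℝ) (f g : U → ℝ) :
    cov Y nu f g = cov Y nu g f := by
  unfold cov
  rw [mul_comm (∑ y ∈ Y, nu y * f y)]
  congr 1
  exact Finset.sum_congr rfl fun y _ => by ring

lemma cov_eq {U : Type*} {Y : Finset U} {nu : U → ℝ} (h1 : ∑ y ∈ Y, nu y = 1) (f g : U → ℝ) :
    cov Y nu f g = ∑ y ∈ Y, nu y * ((f y - ∑ z ∈ Y, nu z * f z) * (g y - ∑ z ∈ Y, nu z * g z)) := by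
  unfold cov
  set A := ∑ z ∈ Y, nu z * f z
  set B := ∑ z ∈ Y, nu z * g z
  have e : ∀ y ∈ Y, nu y * ((f y - A) * (g y - B))
      = nu y * (f y * g y) - B * (nu y * f y) - A * (nu y * g y) + A * B * nu y := by
    intro y _; ring
  rw [Finset.sum_congr rfl e, Finset.sum_add_distrib, Finset.sum_sub_distrib,
    Finset.sum_sub_distrib, ← Finset.mul_sum, ← Finset.mul_sum, ← Finset.mul_sum, h1]
  simp only [A, B]
  ring

/-- the covariance kernel of a family of functions is of positive type -/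
lemma posK_cov {U : Type*} {Y : Finset U} {nu : U → ℝ} (hnu : ∀ y ∈ Y, 0 ≤ nu y)
    (h1 : ∑ y ∈ Y, nu y = 1) (f : V → U → ℝ) :
    PosK (fun x x' => cov Y nu (f x) (f x')) := by
  refine (posK_gram (V := V) Y hnu (fun x y => f x y - ∑ z ∈ Y, nu z * f x z)).congr ?_
  intro x x'
  rw [cov_eq h1]

/-- **Schur.** All mixed moments of two weighted covariance kernels are nonnegative. -/
theorem schur_moments {U U' : Type*} (X : Finset V) (w : V → ℝ)
    {Y : Finset U} {nu : U → ℝ} (hnu : ∀ y ∈ Y, 0 ≤ nu y) (h1 : ∑ y ∈ Y, nu y = 1)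
    {Z : Finset U'} {ze : U' → ℝ} (hze : ∀ z ∈ Z, 0 ≤ ze z) (h2 : ∑ z ∈ Z, ze z = 1)
    (f : V → U → ℝ) (g : V → U' → ℝ) (h h' : V → ℝ) (i j : ℕ) :
    0 ≤ ∑ x ∈ X, ∑ x' ∈ X, w x * w x' *
      ((h x * h x' * cov Y nu (f x) (f x')) ^ i * (h' x * h' x' * cov Z ze (g x) (g x')) ^ j) :=
  ((((posK_cov hnu h1 f).weight h).pow i).mul
    (((posK_cov hze h2 g).weight h').pow j)).double_sum_nonneg X w

end Pool.Agent.H18.RM
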