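import Pool.Agent.H34.RM.Rows
import Pool.Agent.H18.RM.Schur

/-!
Rows B and B2 of the project RM (MP_28724c_co): Schur products of the two covariance kernels,
and Cauchy-Schwarz for the covariance of the indicators with a function.
Author: helper18.
-/

open Finset

namespace Pool.Agent.H18.RM

open Pool.Agent.H34.RM

/-- **Row B.** -/
theorem rowB : RowB := by
  intro V _ G _ X Y Z nu ze hnu hze φ i j
  have h1 : PosK (fun x x' => KR G Y nu x x') := by
    refine (posK_cov (V := V) (Y := Y) (nu := nu) (fun y _ => hnu.nonneg y) hnu.sum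
      (fun x y => rI G x y)).congr ?_
    intro x x'
    rfl
  have h2 : PosK (fun x x' => KB G Z ze x x') := by
    refine (posK_cov (V := V) (Y := Z) (nu := ze) (fun y _ => hze.nonneg y) hze.sum
      (fun x y => bI G x y)).congr ?_
    intro x x'
    rfl
  exact ((h1.pow i).mul (h2.pow j)).double_sum_nonneg X φ

/-- **Row B2.** -/
theorem rowB2 : RowB2 := by
  intro V _ A X Y nu T pi hnu hpi
  classical
  -- the covariances
  set m : V → ℝ := fun x => ∑ y ∈ Y, nu y * A x y with hm
  set τ : ℝ := ∑ y ∈ Y, nu y * T y with hτ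
  set c : V → ℝ := fun x => ∑ y ∈ Y, nu y * (A x y * T y) - m x * τ with hc
  set K : V → V → ℝ := fun x x' => ∑ y ∈ Y, nu y * (A x y * A x' y) - m x * m x' with hK
  -- signs
  obtain ⟨s, hs⟩ : ∃ s : V → ℝ, ∀ x, s x * c x = |c x| ∧ |s x| ≤ 1 := by
    refine ⟨fun x => SignType.sign (c x), fun x => ⟨?_, ?_⟩⟩
    · exact sign_mul_self (c x)
    · rcases lt_trichotomy (c x) 0 with h | h | h
      · simp [sign_neg h]
      · simp [h]
      · simp [sign_pos h]
  -- h y = sum_x pi x s x (A x y - m x)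
  set h : V → ℝ := fun y => ∑ x ∈ X, pi x * s x * (A x y - m x) with hh
  have hcc : ∀ x, c x = ∑ y ∈ Y, nu y * ((A x y - m x) * (T y - τ)) := by
    intro x
    have := cov_eq (Y := Y) (nu := nu) hnu.sum (fun y => A x y) T
    unfold cov at this
    simpa [hc, hm, hτ] using this
  have hKK : ∀ x x', K x x' = ∑ y ∈ Y, nu y * ((A x y - m x) * (A x' y - m x')) := by
    intro x x'
    have := cov_eq (Y := Y) (nu := nu) hnu.sum (fun y => A x y) (fun y => A x' y)
    unfold cov at this
    simpa [hK, hm] using this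
  have hT : ∑ y ∈ Y, nu y * (T y) ^ 2 - τ ^ 2 = ∑ y ∈ Y, nu y * (T y - τ) ^ 2 := by
    have := cov_eq (Y := Y) (nu := nu) hnu.sum T T
    unfold cov at this
    have e1 : ∑ y ∈ Y, nu y * (T y) ^ 2 = ∑ y ∈ Y, nu y * (T y * T y) :=
      Finset.sum_congr rfl fun y _ => by ring
    have e2 : ∑ y ∈ Y, nu y * (T y - τ) ^ 2 = ∑ y ∈ Y, nu y * ((T y - τ) * (T y - τ)) :=
      Finset.sum_congr rfl fun y _ => by ring
    rw [e1, e2, sq, this]
  have e1 : ∑ x ∈ X, pi x * |c x| = ∑ y ∈ Y, nu y * (h y * (T y - τ)) := by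
    calc ∑ x ∈ X, pi x * |c x| = ∑ x ∈ X, ∑ y ∈ Y, pi x * s x * (nu y *
          ((A x y - m x) * (T y - τ))) := by
          refine Finset.sum_congr rfl fun x _ => ?_
          rw [← (hs x).1, ← Finset.mul_sum, ← hcc x]; ring
      _ = ∑ y ∈ Y, ∑ x ∈ X, pi x * s x * (nu y * ((A x y - m x) * (T y - τ))) :=
          Finset.sum_comm
      _ = _ := by
          refine Finset.sum_congr rfl fun y _ => ?_
          simp only [hh]
          rw [Finset.sum_mul, Finset.mul_sum]
          exact Finset.sum_congr rfl fun x _ => by ring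
  have e2 : ∑ y ∈ Y, nu y * (h y) ^ 2 ≤ ∑ x ∈ X, ∑ x' ∈ X, pi x * pi x' * |K x x'| := by
    have f1 : ∑ y ∈ Y, nu y * (h y) ^ 2
        = ∑ x ∈ X, ∑ x' ∈ X, (pi x * s x) * (pi x' * s x') * K x x' := by
      calc ∑ y ∈ Y, nu y * (h y) ^ 2
          = ∑ y ∈ Y, ∑ x ∈ X, ∑ x' ∈ X, (pi x * s x) * (pi x' * s x') *
              (nu y * ((A x y - m x) * (A x' y - m x'))) := by
            refine Finset.sum_congr rfl fun y _ => ?_
            simp only [hh]
            rw [sq, Finset.sum_mul_sum, Finset.mul_sum]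
            refine Finset.sum_congr rfl fun x _ => ?_
            rw [Finset.mul_sum]
            exact Finset.sum_congr rfl fun x' _ => by ring
        _ = ∑ x ∈ X, ∑ y ∈ Y, ∑ x' ∈ X, (pi x * s x) * (pi x' * s x') *
              (nu y * ((A x y - m x) * (A x' y - m x'))) := Finset.sum_comm
        _ = _ := by
            refine Finset.sum_congr rfl fun x _ => ?_
            rw [Finset.sum_comm]
            refine Finset.sum_congr rfl fun x' _ => ?_
            rw [hKK x x', Finset.mul_sum]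
    rw [f1]
    refine Finset.sum_le_sum fun x hx => Finset.sum_le_sum fun x' hx' => ?_
    have g1 := hpi x hx
    have g2 := hpi x' hx'
    have g3 := (hs x).2
    have g4 := (hs x').2
    calc (pi x * s x) * (pi x' * s x') * K x x'
        ≤ |(pi x * s x) * (pi x' * s x') * K x x'| := le_abs_self _
      _ = pi x * pi x' * (|s x| * |s x'|) * |K x x'| := by
          rw [abs_mul, abs_mul, abs_mul, abs_mul, abs_of_nonneg g1, abs_of_nonneg g2]; ring
      _ ≤ pi x * pi x' * (1 * 1) * |K x x'| := by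
          gcongr
      _ = pi x * pi x' * |K x x'| := by ring
  have hV : 0 ≤ ∑ y ∈ Y, nu y * (T y - τ) ^ 2 :=
    Finset.sum_nonneg fun y _ => mul_nonneg (hnu.nonneg y) (sq_nonneg _)
  have cs : (∑ y ∈ Y, nu y * (h y * (T y - τ))) ^ 2
      ≤ (∑ y ∈ Y, nu y * (h y) ^ 2) * ∑ y ∈ Y, nu y * (T y - τ) ^ 2 := by
    have := Finset.sum_mul_sq_le_sq_mul_sq Y (fun y => Real.sqrt (nu y) * h y)
      (fun y => Real.sqrt (nu y) * (T y - τ))
    have f1 : ∀ y, Real.sqrt (nu y) * h y * (Real.sqrt (nu y) * (T y - τ))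
        = nu y * (h y * (T y - τ)) := by
      intro y
      have := Real.mul_self_sqrt (hnu.nonneg y)
      calc _ = (Real.sqrt (nu y) * Real.sqrt (nu y)) * (h y * (T y - τ)) := by ring
        _ = _ := by rw [this]
    have f2 : ∀ y, (Real.sqrt (nu y) * h y) ^ 2 = nu y * (h y) ^ 2 := by
      intro y; rw [mul_pow, Real.sq_sqrt (hnu.nonneg y)]
    have f3 : ∀ y, (Real.sqrt (nu y) * (T y - τ)) ^ 2 = nu y * (T y - τ) ^ 2 := by
      intro y; rw [mul_pow, Real.sq_sqrt (hnu.nonneg y)]
    simp only [f1, f2, f3] at this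
    exact this
  have goal : (∑ x ∈ X, pi x * |c x|) ^ 2
      ≤ (∑ x ∈ X, ∑ x' ∈ X, pi x * pi x' * |K x x'|)
        * (∑ y ∈ Y, nu y * (T y) ^ 2 - τ ^ 2) := by
    rw [e1, hT]
    exact cs.trans (mul_le_mul_of_nonneg_right e2 hV)
  exact goal

end Pool.Agent.H18.RM
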